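import Mathlib

set_option autoImplicit false

namespace Pool.Agent.Results.MP_64ebd5_nt.Counter

open Finset

/-- `n` is a sum of distinct divisors `d < n` -/
def PP (n : ℕ) : Prop := 0 < n ∧ ∃ S ⊆ n.properDivisors, ∑ d ∈ S, d = n

/-- primitive pseudoperfect -/
def PrimPP (n : ℕ) : Prop := PP n ∧ ∀ d ∈ n.properDivisors, ¬ PP d

/-- the `k`-th prime, `p 1 = 2` -/
noncomputable def p (k : ℕ) : ℕ := Nat.nth Nat.Prime (k - 1)

/-- `p_k p_{k+1} ⋯ p_j` -/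
noncomputable def P (k j : ℕ) : ℕ := ∏ l ∈ Icc k j, p l

noncomputable def f (k : ℕ) : ℕ :=
  sInf {j : ℕ | k ≤ j ∧ 2 * P k j ≤ ∑ d ∈ (P k j).divisors, d}

noncomputable def A (k : ℕ) : ℕ := P k (f k)

noncomputable def B (k : ℕ) : ℕ := A k / p (f k) * p (f k + 1) * p (f k + 2)

lemma pv (k q : ℕ) (hq : q.Prime) (h : Nat.count Nat.Prime q = k - 1) : p k = q := by
  have := Nat.nth_count (p := Nat.Prime) (n := q) hq
  rw [h] at this
  exact this

lemma p2 : p 2 = 3 := pv _ _ (by norm_num) (by decide)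
lemma p3 : p 3 = 5 := pv _ _ (by norm_num) (by decide)
lemma p4 : p 4 = 7 := pv _ _ (by norm_num) (by decide)
lemma p5 : p 5 = 11 := pv _ _ (by norm_num) (by decide)
lemma p6 : p 6 = 13 := pv _ _ (by norm_num) (by decide)
lemma p7 : p 7 = 17 := pv _ _ (by norm_num) (by decide +kernel)
lemma p8 : p 8 = 19 := pv _ _ (by norm_num) (by decide +kernel)

lemma P2 : P 2 2 = 3 := by simp [P, p2]
lemma P3 : P 2 3 = 15 := by
  rw [P, Finset.prod_Icc_succ_top (by norm_num), ← P, P2, p3]; rfl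
lemma P4 : P 2 4 = 105 := by
  rw [P, Finset.prod_Icc_succ_top (by norm_num), ← P, P3, p4]; rfl
lemma P5 : P 2 5 = 1155 := by
  rw [P, Finset.prod_Icc_succ_top (by norm_num), ← P, P4, p5]; rfl
lemma P6 : P 2 6 = 15015 := by
  rw [P, Finset.prod_Icc_succ_top (by norm_num), ← P, P5, p6]; rfl

lemma f2 : f 2 = 6 := by
  have mem : 6 ∈ {j : ℕ | 2 ≤ j ∧ 2 * P 2 j ≤ ∑ d ∈ (P 2 j).divisors, d} := by
    refine ⟨by norm_num, ?_⟩
    rw [P6]; decide +kernel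
  apply le_antisymm (Nat.sInf_le mem)
  obtain ⟨h1, h2⟩ := Nat.sInf_mem ⟨6, mem⟩
  by_contra hlt
  have hlt' : sInf {j : ℕ | 2 ≤ j ∧ 2 * P 2 j ≤ ∑ d ∈ (P 2 j).divisors, d} < 6 := not_le.1 hlt
  generalize sInf {j : ℕ | 2 ≤ j ∧ 2 * P 2 j ≤ ∑ d ∈ (P 2 j).divisors, d} = t at h1 h2 hlt'
  interval_cases t
  · rw [P2] at h2; revert h2; decide +kernel
  · rw [P3] at h2; revert h2; decide +kernel
  · rw [P4] at h2; revert h2; decide +kernel
  · rw [P5] at h2; revert h2; decide +kernel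

lemma B2 : B 2 = 373065 := by
  rw [B, A, f2, P6, p6, p7, p8]

lemma pp : PP 19635 := by
  refine ⟨by norm_num, {1, 3, 5, 7, 15, 17, 33, 35, 51, 55, 77, 85, 105, 119, 165, 187, 231, 255,
    357, 561, 595, 935, 1155, 1309, 2805, 3927, 6545}, ?_, by decide +kernel⟩
  intro d hd
  rw [Nat.mem_properDivisors]
  revert d
  decide +kernel

theorem result :
    (f 2 = 6 ∧ B 2 = 373065 ∧ PP 19635 ∧ ¬ PrimPP (B 2)) ∧
    ¬ ∀ k : ℕ, 2 ≤ k → PrimPP (A k) ∧ PrimPP (B k) := by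
  have h : ¬ PrimPP (B 2) := by
    rw [B2]
    intro h
    exact h.2 19635 (by rw [Nat.mem_properDivisors]; norm_num) pp
  exact ⟨⟨f2, B2, pp, h⟩, fun g => h (g 2 le_rfl).2⟩

end Pool.Agent.Results.MP_64ebd5_nt.Counter
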